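import Mathlib

set_option autoImplicit false
open Set Filter Topology

namespace Pool.Agent.H.MP_49a423

universe u

variable {K : Type} {Γ : Type u} [TopologicalSpace K] [CompactSpace K] [T2Space K]

theorem gd (φ : K → Γ → ℝ) (hφ : Continuous φ)
    (hd : Dense (φ ⁻¹' {x : Γ → ℝ | {γ | x γ ≠ 0}.Countable}))
    {Y : Type u} [TopologicalSpace Y] [T2Space Y] [FirstCountableTopology Y] (G : K → Y)
    (hG : Continuous G) (p : K) : ∃ a, {γ | φ a γ ≠ 0}.Countable ∧ G a = G p := by
  obtain ⟨V, hV⟩ := (𝓝 (G p)).exists_antitone_basis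
  have h1 : ∀ n, ∃ a, {γ | φ a γ ≠ 0}.Countable ∧ G a ∈ V n := by
    intro n
    obtain ⟨a, ha, ha'⟩ := hd.inter_nhds_nonempty (hG.continuousAt.preimage_mem_nhds (hV.mem n))
    exact ⟨a, ha, ha'⟩
  choose a ha hV' using h1
  have ht : Tendsto (fun n => G (a n)) atTop (𝓝 (G p)) := hV.tendsto hV'
  obtain ⟨x, hx⟩ := exists_clusterPt_of_compactSpace (map a atTop)
  have hx' : MapClusterPt x atTop a := hx
  refine ⟨x, ?_, ?_⟩
  · refine (countable_iUnion ha).mono fun γ hγ => ?_
    by_contra hn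
    simp only [mem_iUnion, not_exists, mem_ofPred_eq, not_not] at hn
    apply hγ
    have hc : IsClosed {y | φ y γ = 0} :=
      isClosed_eq ((continuous_apply γ).comp hφ) continuous_const
    exact hc.mem_of_mapClusterPt hx' (Eventually.of_forall hn)
  · exact eq_of_nhds_neBot ((hx'.continuousAt_comp hG.continuousAt).clusterPt.mono ht)

theorem fix (φ : K → Γ → ℝ) (hφ : IsEmbedding φ)
    (hd : Dense (φ ⁻¹' {x : Γ → ℝ | {γ | x γ ≠ 0}.Countable})) (h : K → K) (hh : Continuous h)
    (hinv : ∀ x, {γ | φ x γ ≠ 0}.Countable → {γ | φ (h x) γ ≠ 0}.Countable)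
    (c : K → Bool) (hc : Continuous c) (p : K) (hp : h p = p) :
    ∃ a, {γ | φ a γ ≠ 0}.Countable ∧ h a = a ∧ c a = c p := by
  classical
  have hφc := hφ.continuous
  have step : ∀ S : {S : Set Γ // S.Countable}, ∃ a, {γ | φ a γ ≠ 0}.Countable ∧ c a = c p ∧
      (∀ γ ∈ S.1, φ a γ = φ p γ) ∧ ∀ γ ∈ S.1, φ (h a) γ = φ p γ := by
    intro S
    have := S.2.to_subtype
    obtain ⟨a, ha, hG⟩ := gd φ hφc hd
      (fun x => (c x, (fun γ : S.1 => φ x γ), (fun γ : S.1 => φ (h x) γ))) (by fun_prop) p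
    simp only [Prod.mk.injEq, hp] at hG
    exact ⟨a, ha, hG.1, fun γ hγ => congrFun hG.2.1 ⟨γ, hγ⟩, fun γ hγ => congrFun hG.2.2 ⟨γ, hγ⟩⟩
  choose f hf1 hf2 hf3 hf4 using step
  let nx : {S : Set Γ // S.Countable} → {S : Set Γ // S.Countable} := fun S =>
    ⟨S.1 ∪ ({γ | φ (f S) γ ≠ 0} ∪ {γ | φ (h (f S)) γ ≠ 0}),
      S.2.union ((hf1 S).union (hinv _ (hf1 S)))⟩
  let T : ℕ → {S : Set Γ // S.Countable} := fun n => nx^[n] ⟨∅, countable_empty⟩
  have hT : ∀ n, T (n + 1) = nx (T n) := fun n => Function.iterate_succ_apply' _ _ _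
  have hm : Monotone fun n => (T n).1 := monotone_nat_of_le_succ fun n => by
    rw [hT]; exact subset_union_left
  let a : ℕ → K := fun n => f (T n)
  obtain ⟨x, hx⟩ := exists_clusterPt_of_compactSpace (map a atTop)
  have hx' : MapClusterPt x atTop a := hx
  have key : ∀ g : K → K, Continuous g → (∀ n, ∀ γ ∈ (T n).1, φ (g (a n)) γ = φ p γ) →
      (∀ n γ, φ (g (a n)) γ ≠ 0 → γ ∈ (T (n + 1)).1) →
      ∀ γ, φ (g x) γ = if γ ∈ ⋃ n, (T n).1 then φ p γ else 0 := by
    intro g hg h1 h2 γ
    have hcl : IsClosed {y | φ (g y) γ = if γ ∈ ⋃ n, (T n).1 then φ p γ else 0} :=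
      isClosed_eq (by fun_prop) continuous_const
    refine hcl.mem_of_mapClusterPt hx' ?_
    by_cases hγ : γ ∈ ⋃ n, (T n).1
    · obtain ⟨m, hm'⟩ := mem_iUnion.1 hγ
      filter_upwards [eventually_ge_atTop m] with n hn
      rw [if_pos hγ]
      exact h1 n γ (hm hn hm')
    · refine Eventually.of_forall fun n => ?_
      rw [mem_ofPred_eq, if_neg hγ]
      by_contra hne
      exact hγ (mem_iUnion.2 ⟨_, h2 n γ hne⟩)
  have k1 := key id continuous_id (fun n => hf3 (T n)) fun n γ hne => by
    rw [hT]; exact Or.inr (Or.inl hne)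
  have k2 := key h hh (fun n => hf4 (T n)) fun n γ hne => by
    rw [hT]; exact Or.inr (Or.inr hne)
  refine ⟨x, ?_, hφ.injective (funext fun γ => (k2 γ).trans (k1 γ).symm), ?_⟩
  · refine (countable_iUnion fun n => (T n).2).mono fun γ hγ => ?_
    by_contra hn
    exact hγ ((k1 γ).trans (if_neg hn))
  · exact (isClosed_eq hc continuous_const).mem_of_mapClusterPt hx'
      (Eventually.of_forall fun n => hf2 (T n))

abbrev J : Type := Set ℕ ⊕ (ℕ × Set ℕ)

open Classical in
noncomputable def hh (x : J → Bool) : J → Bool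
  | Sum.inl E => x (Sum.inl E)
  | Sum.inr q => xor (x (Sum.inr q)) (x (Sum.inl {q.1}) && (x (Sum.inl q.2) != decide (q.1 ∈ q.2)))

theorem hc : Continuous hh := by
  refine continuous_pi fun j => ?_
  cases j with
  | inl E => exact continuous_apply _
  | inr q =>
    classical
    exact (continuous_of_discreteTopology (f := fun t : Bool × Bool × Bool =>
      xor t.1 (t.2.1 && (t.2.2 != decide (q.1 ∈ q.2))))).comp
      (f := fun x : J → Bool => (x (Sum.inr q), x (Sum.inl {q.1}), x (Sum.inl q.2)))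
      (by fun_prop)

theorem hi (x : J → Bool) : hh (hh x) = x := by
  funext j
  cases j with
  | inl E => rfl
  | inr q => simp [hh]

theorem vald : ∃ A : Set (J → Bool), Dense A ∧ ∃ (Γ : Type) (φ : (J → Bool) → (Γ → ℝ)),
    IsEmbedding φ ∧ A = φ ⁻¹' {x : Γ → ℝ | {γ : Γ | x γ ≠ 0}.Countable} := by
  classical
  let φ : (J → Bool) → J → ℝ := fun x j => if x j = true then 1 else 0
  have hφc : Continuous φ := continuous_pi fun j =>
    (continuous_of_discreteTopology (f := fun b : Bool => if b = true then (1 : ℝ) else 0)).comp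
      (continuous_apply j)
  have hφi : Function.Injective φ := fun x y hxy => funext fun j => by
    have := congrFun hxy j
    simp only [φ] at this
    cases hx : x j <;> cases hy : y j <;> simp_all
  refine ⟨_, ?_, J, φ, (hφc.isClosedEmbedding hφi).isEmbedding, rfl⟩
  intro x
  have ht : Tendsto (fun s : Finset J => fun j => if j ∈ s then x j else false) atTop (𝓝 x) := by
    refine tendsto_pi_nhds.2 fun j => tendsto_const_nhds.congr' ?_
    filter_upwards [eventually_ge_atTop {j}] with s hs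
    rw [if_pos (hs (Finset.mem_singleton_self j))]
  refine mem_closure_of_tendsto ht (Eventually.of_forall fun s => ?_)
  refine s.countable_toSet.mono fun j hj => ?_
  by_contra hn
  apply hj
  have hn' : j ∉ s := hn
  simp [φ, hn']

theorem main (φ : (J → Bool) → Γ → ℝ) (hφ : IsEmbedding φ)
    (hd : Dense (φ ⁻¹' {x : Γ → ℝ | {γ | x γ ≠ 0}.Countable}))
    (hinv : ∀ x, {γ | φ x γ ≠ 0}.Countable → {γ | φ (hh x) γ ≠ 0}.Countable) : False := by
  classical
  have hφc := hφ.continuous
  have h1 : ∀ n : ℕ, ∃ a : J → Bool, {γ | φ a γ ≠ 0}.Countable ∧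
      ∀ E, a (Sum.inl E) = decide (n ∈ E) := by
    intro n
    obtain ⟨a, ha, hf, hn⟩ := fix φ hφ hd hh hc hinv (fun x => x (Sum.inl {n}))
      (continuous_apply _) (Sum.elim (fun E => decide (n ∈ E)) fun _ => false) (by
        funext j
        cases j with
        | inl E => rfl
        | inr q =>
          by_cases hq : n = q.1
          · simp [hh, hq]
          · simp [hh, hq])
    refine ⟨a, ha, fun E => ?_⟩
    have h2 := congrFun hf (Sum.inr (n, E))
    have hn' : a (Sum.inl {n}) = true := by simpa using hn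
    simp only [hh, hn'] at h2
    revert h2
    cases a (Sum.inr (n, E)) <;> cases a (Sum.inl E) <;> by_cases hE : n ∈ E <;> simp [hE]
  choose a ha hE using h1
  have hS := countable_iUnion ha
  have := hS.to_subtype
  let ψ : (J → Bool) → (⋃ n, {γ | φ (a n) γ ≠ 0}) → ℝ := fun x γ => φ x γ
  have hψ : Continuous ψ := by fun_prop
  obtain ⟨z, -, s, hs, hz⟩ := (isCompact_range hψ).tendsto_subseq
    (x := fun n => ψ (a n)) fun n => mem_range_self _
  have key : ∀ t : ℕ → ℕ, Tendsto t atTop atTop → ∀ x, MapClusterPt x atTop (fun k => a (s (t k))) →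
      ψ x = z ∧ ∀ γ, γ ∉ (⋃ n, {γ | φ (a n) γ ≠ 0}) → φ x γ = 0 := by
    intro t ht x hx
    refine ⟨eq_of_nhds_neBot ((hx.continuousAt_comp hψ.continuousAt).clusterPt.mono
      (hz.comp ht)), fun γ hγ => ?_⟩
    simp only [mem_iUnion, not_exists, mem_ofPred_eq, not_not] at hγ
    have hcl : IsClosed {y | φ y γ = 0} :=
      isClosed_eq ((continuous_apply γ).comp hφc) continuous_const
    exact hcl.mem_of_mapClusterPt hx (Eventually.of_forall fun k => hγ _)
  obtain ⟨x, hx⟩ := exists_clusterPt_of_compactSpace (map (fun k => a (s (2 * k))) atTop)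
  obtain ⟨y, hy⟩ := exists_clusterPt_of_compactSpace (map (fun k => a (s (2 * k + 1))) atTop)
  have t1 : Tendsto (fun k : ℕ => 2 * k) atTop atTop :=
    tendsto_atTop_mono (fun k => by simp only [id]; omega) tendsto_id
  have t2 : Tendsto (fun k : ℕ => 2 * k + 1) atTop atTop :=
    tendsto_atTop_mono (fun k => by simp only [id]; omega) tendsto_id
  obtain ⟨x1, x2⟩ := key _ t1 x hx
  obtain ⟨y1, y2⟩ := key _ t2 y hy
  have hxy : x = y := hφ.injective (funext fun γ => by
    by_cases hγ : γ ∈ ⋃ n, {γ | φ (a n) γ ≠ 0}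
    · exact congrFun (x1.trans y1.symm) ⟨γ, hγ⟩
    · rw [x2 γ hγ, y2 γ hγ])
  let E : Set ℕ := range fun k => s (2 * k)
  have e1 : x (Sum.inl E) = true :=
    (isClosed_eq (continuous_apply (Sum.inl E)) continuous_const).mem_of_mapClusterPt
      (show MapClusterPt x atTop (fun k => a (s (2 * k))) from hx)
      (Eventually.of_forall fun k => by
        rw [mem_ofPred_eq, hE]; exact decide_eq_true ⟨k, rfl⟩)
  have e2 : y (Sum.inl E) = false :=
    (isClosed_eq (continuous_apply (Sum.inl E)) continuous_const).mem_of_mapClusterPt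
      (show MapClusterPt y atTop (fun k => a (s (2 * k + 1))) from hy)
      (Eventually.of_forall fun k => by
        rw [mem_ofPred_eq, hE]
        refine decide_eq_false ?_
        rintro ⟨m, hm⟩
        have := hs.injective hm
        omega)
  rw [hxy, e2] at e1
  exact Bool.false_ne_true e1

end Pool.Agent.H.MP_49a423
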